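import Mathlib

namespace Pool.Agent.Results.MP_f17d28_nt.Example

/-- complete quotients of the simple continued fraction -/
noncomputable def cq (x : ℝ) : ℕ → ℝ
  | 0 => x
  | n + 1 => (Int.fract (cq x n))⁻¹

/-- the terms `c_n` of the simple continued fraction -/
noncomputable def c (x : ℝ) (n : ℕ) : ℤ := ⌊cq x n⌋

/-- the finite continued fraction `[a_0; a_1, ..., a_m]` -/
def cfv : List ℤ → ℚ
  | [] => 0
  | [a] => a
  | a :: b :: l => a + (cfv (b :: l))⁻¹

/-- the convergent `p_j/q_j = [c_0; c_1, ..., c_{j-1}]` -/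
noncomputable def conv (x : ℝ) (j : ℕ) : ℚ := cfv ((List.range j).map (c x))

/-- the map `f_d` on the rationals with a point at infinity (`none`) -/
def f (k : ℕ) (d : ℚ) : Option ℚ → Option ℚ
  | none => some d
  | some x => if x + d = 0 then none else some ((d * x + k) / (x + d))

lemma step {s x y : ℝ} {n : ℕ} (a : ℤ) (h : cq s n = x) (h1 : a ≤ x) (h2 : x < a + 1)
    (h3 : (x - a) * y = 1) : c s n = a ∧ cq s (n + 1) = y := by
  have h4 : ⌊x⌋ = a := Int.floor_eq_iff.2 ⟨h1, h2⟩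
  refine ⟨by rw [c, h, h4], ?_⟩
  rw [cq, h, Int.fract, h4]
  exact inv_eq_of_mul_eq_one_right h3

lemma facts : c √22 0 = 4 ∧ c √22 1 = 1 ∧ c √22 2 = 2 ∧ c √22 3 = 4 ∧ c √22 4 = 2 ∧
    c √22 5 = 1 ∧ c √22 6 = 8 ∧ cq √22 7 = cq √22 1 := by
  have h1 : (4.6 : ℝ) < √22 := Real.lt_sqrt_of_sq_lt (by norm_num)
  have h2 : √22 < 4.7 := (Real.sqrt_lt' (by norm_num)).2 (by norm_num)
  have h3 : √22 * √22 = 22 := Real.mul_self_sqrt (by norm_num)
  generalize √22 = s at *
  obtain ⟨a0, b1⟩ := step (s := s) (x := s) (n := 0) (y := (s + 4) / 6) 4 rfl (by push_cast; linarith)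
    (by push_cast; linarith) (by push_cast; linarith)
  obtain ⟨a1, b2⟩ := step (y := (s + 2) / 3) 1 b1 (by push_cast; linarith)
    (by push_cast; linarith) (by push_cast; linarith)
  obtain ⟨a2, b3⟩ := step (y := (s + 4) / 2) 2 b2 (by push_cast; linarith)
    (by push_cast; linarith) (by push_cast; linarith)
  obtain ⟨a3, b4⟩ := step (y := (s + 4) / 3) 4 b3 (by push_cast; linarith)
    (by push_cast; linarith) (by push_cast; linarith)
  obtain ⟨a4, b5⟩ := step (y := (s + 2) / 6) 2 b4 (by push_cast; linarith)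
    (by push_cast; linarith) (by push_cast; linarith)
  obtain ⟨a5, b6⟩ := step (y := s + 4) 1 b5 (by push_cast; linarith)
    (by push_cast; linarith) (by push_cast; linarith)
  obtain ⟨a6, b7⟩ := step (y := (s + 4) / 6) 8 b6 (by push_cast; linarith)
    (by push_cast; linarith) (by push_cast; linarith)
  exact ⟨a0, a1, a2, a3, a4, a5, a6, b7.trans b1.symm⟩

lemma per (n : ℕ) : cq √22 (n + 1 + 6) = cq √22 (n + 1) := by
  induction n with
  | zero => exact facts.2.2.2.2.2.2.2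
  | succ n ih => rw [show n + 1 + 1 + 6 = n + 1 + 6 + 1 by ring, cq, ih, ← cq]

def Good : Option ℚ → Prop
  | none => True
  | some x => ∃ s : ℚ, x ^ 2 - 22 = s ^ 2 ∨ x ^ 2 - 22 = -2 * s ^ 2

lemma good_iff (y : Option ℚ) : Good (f 22 (14 / 3) y) ↔ Good y := by
  cases y with
  | none => exact iff_of_true ⟨1 / 3, Or.inr (by norm_num)⟩ trivial
  | some x =>
    by_cases h : x + 14 / 3 = 0
    · rw [f, if_pos h]
      exact iff_of_true trivial ⟨1 / 3, Or.inr (by
        rw [show x = -(14 / 3) by linarith]; norm_num)⟩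
    · rw [f, if_neg h]
      have e : ((14 / 3 * x + (22 : ℕ)) / (x + 14 / 3)) ^ 2 - 22 =
          -2 * (x ^ 2 - 22) / (3 * (x + 14 / 3)) ^ 2 := by
        push_cast
        generalize hy : x + 14 / 3 = y at *
        rw [show x = y - 14 / 3 by linarith]
        field_simp
        ring
      simp only [Good, e]
      generalize x + 14 / 3 = y at *
      constructor
      · rintro ⟨s, hs | hs⟩
        · rw [div_eq_iff (by positivity)] at hs
          exact ⟨s * (3 * y) / 2, Or.inr (by linarith)⟩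
        · rw [div_eq_iff (by positivity)] at hs
          exact ⟨s * (3 * y), Or.inl (by linarith)⟩
      · rintro ⟨s, hs | hs⟩
        · exact ⟨s / (3 * y), Or.inr (by rw [hs]; field_simp)⟩
        · exact ⟨2 * s / (3 * y), Or.inl (by rw [hs]; field_simp)⟩

lemma good_iter (n : ℕ) (y : Option ℚ) : Good ((f 22 (14 / 3))^[n] y) ↔ Good y := by
  induction n with
  | zero => rfl
  | succ n ih => rw [Function.iterate_succ_apply', good_iff, ih]

lemma not_good : ¬ Good (some 5) := by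
  rintro ⟨s, hs | hs⟩
  · have h : IsSquare ((3 : ℕ) : ℚ) := ⟨s, by push_cast; linarith⟩
    rw [Rat.isSquare_natCast_iff] at h
    exact Nat.prime_three.prime.not_isSquare h
  · nlinarith [sq_nonneg s]

theorem result : ∃ (k : ℕ) (d x₀ : ℚ) (L i j : ℕ), 0 < k ∧ ¬ IsSquare k ∧ 0 < d ∧
    (∃ R : ℤ, 4 * d ^ 2 / (k - d ^ 2) = R) ∧
    IsLeast {M : ℕ | 1 ≤ M ∧ ∀ n, 1 ≤ n → c √k (n + M) = c √k n} L ∧
    (∀ n : ℕ, (f k d)^[n] none ≠ some x₀ ∧ (f k d)^[n] (some x₀) ≠ none) ∧
    1 ≤ i ∧ 1 ≤ j ∧ ¬ i ≡ j [MOD L] ∧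
    (∃ n : ℕ, (f k d)^[n] (some x₀) = some (conv √k i)) ∧
    (∃ n : ℕ, (f k d)^[n] (some x₀) = some (conv √k j)) := by
  obtain ⟨a0, a1, a2, a3, a4, a5, a6, -⟩ := facts
  refine ⟨22, 14 / 3, 5, 6, 2, 5, by norm_num, by decide +kernel, by norm_num,
    ⟨392, by norm_num⟩, ⟨⟨by norm_num, fun n hn => ?_⟩, ?_⟩, fun n => ⟨fun h => ?_, fun h => ?_⟩,
    by norm_num, by norm_num, by decide, ⟨0, ?_⟩, ⟨1, ?_⟩⟩
  · obtain ⟨n, rfl⟩ := Nat.exists_eq_add_of_le' hn
    rw [c, c, Nat.cast_ofNat, per]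
  · rintro M ⟨h1, h2⟩
    by_contra h
    have h3 := h2 1 le_rfl
    have h4 := h2 2 (by norm_num)
    have a7 : c √22 7 = 1 := by rw [← a1, c, c, ← per 0]
    rw [Nat.cast_ofNat] at h3 h4
    have : M = 1 ∨ M = 2 ∨ M = 3 ∨ M = 4 ∨ M = 5 := by omega
    rcases this with rfl | rfl | rfl | rfl | rfl <;> simp_all
  · exact not_good (h ▸ (good_iter n none).2 trivial)
  · exact not_good ((good_iter n _).1 (h ▸ trivial))
  · simp [conv, List.range_succ, cfv, a0, a1]
    norm_num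
  · simp [conv, List.range_succ, cfv, a0, a1, a2, a3, a4, f]
    norm_num

end Pool.Agent.Results.MP_f17d28_nt.Example
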